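import Pool.Agent.Q139.Hasse.Fam

/-!
Checkable certificates for Hasse-regularity and for lower bounds on the order dimension.
-/

namespace Pool.Agent.Q139.Hasse

/-- Boolean test for the absence of repetitions. -/
def nodupB : List ℕ → Bool
  | [] => true
  | x :: l => !(l.any (fun y => Nat.beq x y)) && nodupB l

theorem nodup_of_nodupB : ∀ {l : List ℕ}, nodupB l = true → l.Nodup
  | [], _ => List.nodup_nil
  | x :: l, h => by
    simp only [nodupB, Bool.and_eq_true, Bool.not_eq_true', List.any_eq_false] at h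
    refine List.nodup_cons.2 ⟨?_, nodup_of_nodupB h.2⟩
    intro hx
    exact h.1 x hx (beqN.2 rfl)

/-- Local check at one element `e.1` with list of upper covers `e.2`. -/
def entryOK (r : ℕ) (D : List (ℕ × List ℕ)) (e : ℕ × List ℕ) : Bool :=
  e.2.all (fun u => D.any (fun f => Nat.beq f.1 u) && sub e.1 u && !(Nat.beq e.1 u)) &&
  D.all (fun f => !(sub e.1 f.1) || Nat.beq e.1 f.1 || e.2.any (fun u => sub u f.1)) &&
  e.2.all (fun u => e.2.all (fun v => !(sub v u) || Nat.beq v u)) &&
  nodupB e.2 &&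
  Nat.beq (e.2.length + (D.filter (fun f => f.2.any (fun u => Nat.beq u e.1))).length) r

theorem covBy_iff {r : ℕ} {D : List (ℕ × List ℕ)} (h : ∀ e ∈ D, entryOK r D e = true)
    {e : ℕ × List ℕ} (he : e ∈ D) (x y : Fam (D.map Prod.fst)) (hx : x.val = e.1) :
    x ⋖ y ↔ y.val ∈ e.2 := by
  have h0 := h e he
  simp only [entryOK, Bool.and_eq_true, List.all_eq_true, Bool.or_eq_true, Bool.not_eq_true',
    List.any_eq_true] at h0
  obtain ⟨⟨⟨⟨h1, h2⟩, h3⟩, h4⟩, h5⟩ := h0
  have hmem : ∀ u ∈ e.2, u ∈ D.map Prod.fst := by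
    intro u hu
    obtain ⟨⟨⟨f, hf, hfu⟩, _⟩, _⟩ := h1 u hu
    rw [beqN] at hfu
    exact List.mem_map.2 ⟨f, hf, hfu⟩
  have hlt : ∀ (u : ℕ) (hu : u ∈ e.2), x < ⟨u, hmem u hu⟩ := by
    intro u hu
    obtain ⟨⟨_, h6⟩, h7⟩ := h1 u hu
    rw [lt_iff_le_and_ne]
    refine ⟨?_, ?_⟩
    · rw [Fam.le_iff_sub, hx]
      exact h6
    · intro h8
      have : x.val = u := congrArg Fam.val h8
      rw [hx] at this
      rw [beqN.2 this] at h7
      exact absurd h7 (by decide)
  have hex : ∀ z : Fam (D.map Prod.fst), x < z → ∃ u, ∃ hu : u ∈ e.2,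
      (⟨u, hmem u hu⟩ : Fam (D.map Prod.fst)) ≤ z := by
    intro z hz
    obtain ⟨f, hf, hfz⟩ := List.mem_map.1 z.mem
    rcases h2 f hf with (h6 | h6) | h6
    · have := (Fam.le_iff_sub _ _).1 hz.le
      rw [hx, ← hfz, h6] at this
      exact absurd this (by decide)
    · rw [beqN] at h6
      exfalso
      apply hz.ne
      apply Fam.ext
      rw [hx, h6, hfz]
    · obtain ⟨u, hu, h7⟩ := h6
      refine ⟨u, hu, ?_⟩
      rw [Fam.le_iff_sub]
      rw [hfz] at h7
      exact h7
  constructor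
  · intro hxy
    obtain ⟨u, hu, h6⟩ := hex y hxy.lt
    have h7 := hlt u hu
    rcases h6.eq_or_lt with h8 | h8
    · rw [← h8]
      exact hu
    · exact absurd h8 (hxy.2 h7)
  · intro hy
    refine ⟨?_, ?_⟩
    · exact hlt y.val hy
    · intro z hz1 hz2
      obtain ⟨v, hv, h6⟩ := hex z hz1
      have h7 : (⟨v, hmem v hv⟩ : Fam (D.map Prod.fst)) ≤ y := h6.trans hz2.le
      rw [Fam.le_iff_sub] at h7
      rcases h3 y.val hy v hv with h8 | h8
      · simp only at h7
        rw [h8] at h7
        exact absurd h7 (by decide)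
      · rw [beqN] at h8
        have h9 : (⟨v, hmem v hv⟩ : Fam (D.map Prod.fst)) = y := Fam.ext h8
        rw [h9] at h6
        exact absurd hz2 (not_lt_of_ge h6)

theorem regular_of_check (r : ℕ) (D : List (ℕ × List ℕ))
    (h : D.all (fun e => entryOK r D e) = true) (hn : nodupB (D.map Prod.fst) = true) :
    HasseRegular (Fam (D.map Prod.fst)) r := by
  rw [List.all_eq_true] at h
  have hnd := nodup_of_nodupB hn
  intro x
  obtain ⟨e, he, hex⟩ := List.mem_map.1 x.mem
  have h0 := h e he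
  simp only [entryOK, Bool.and_eq_true, List.all_eq_true, Bool.or_eq_true, Bool.not_eq_true',
    List.any_eq_true] at h0
  obtain ⟨⟨⟨⟨h1, h2⟩, h3⟩, h4⟩, h5⟩ := h0
  have hinj : Function.Injective (Fam.val : Fam (D.map Prod.fst) → ℕ) := fun a b h => Fam.ext h
  -- upper covers
  have hu : {y : Fam (D.map Prod.fst) | x ⋖ y}.ncard = e.2.length := by
    rw [← Set.ncard_image_of_injective _ hinj]
    have : (Fam.val '' {y : Fam (D.map Prod.fst) | x ⋖ y}) = (e.2.toFinset : Set ℕ) := by
      ext n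
      simp only [Set.mem_image, Set.mem_ofPred_eq, List.coe_toFinset]
      constructor
      · rintro ⟨y, hy, rfl⟩
        exact (covBy_iff h he x y hex.symm).1 hy
      · intro hn'
        obtain ⟨⟨⟨f, hf, hfu⟩, _⟩, _⟩ := h1 n hn'
        rw [beqN] at hfu
        have hm : n ∈ D.map Prod.fst := List.mem_map.2 ⟨f, hf, hfu⟩
        exact ⟨⟨n, hm⟩, (covBy_iff h he x ⟨n, hm⟩ hex.symm).2 hn', rfl⟩
    rw [this, Set.ncard_coe_finset, List.toFinset_card_of_nodup (nodup_of_nodupB h4)]
  -- lower covers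
  have hl : {y : Fam (D.map Prod.fst) | y ⋖ x}.ncard =
      (D.filter (fun f => f.2.any (fun u => Nat.beq u e.1))).length := by
    rw [← Set.ncard_image_of_injective _ hinj]
    have hsub : ((D.filter (fun f => f.2.any (fun u => Nat.beq u e.1))).map Prod.fst).Nodup :=
      hnd.sublist (List.filter_sublist.map _)
    have : (Fam.val '' {y : Fam (D.map Prod.fst) | y ⋖ x}) =
        ((((D.filter (fun f => f.2.any (fun u => Nat.beq u e.1))).map Prod.fst).toFinset :
          Finset ℕ) : Set ℕ) := by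
      ext n
      simp only [Set.mem_image, Set.mem_ofPred_eq, List.coe_toFinset, List.mem_map,
        List.mem_filter, List.any_eq_true]
      constructor
      · rintro ⟨y, hy, rfl⟩
        obtain ⟨f, hf, hfy⟩ := List.mem_map.1 y.mem
        have := (covBy_iff h hf y x hfy.symm).1 hy
        exact ⟨f, ⟨hf, x.val, this, beqN.2 hex.symm⟩, hfy⟩
      · rintro ⟨f, ⟨hf, u, hu', hue⟩, rfl⟩
        rw [beqN] at hue
        have hm : f.1 ∈ D.map Prod.fst := List.mem_map.2 ⟨f, hf, rfl⟩
        refine ⟨⟨f.1, hm⟩, (covBy_iff h hf ⟨f.1, hm⟩ x rfl).2 ?_, rfl⟩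
        rw [← hex, ← hue]
        exact hu'
    rw [this, Set.ncard_coe_finset, List.toFinset_card_of_nodup hsub, List.length_map]
  rw [hu, hl, add_comm]
  exact beqN.1 h5

/-! ### Order dimension -/

/-- Two pairs that cannot be reversed by the same linear extension. -/
def conf (v w : ℕ × ℕ) : Bool := sub v.1 w.2 && sub w.1 v.2

/-- Exhaustive search for an assignment of the pairs to `k` linear extensions: `true` means that
there is none. -/
def search (k : ℕ) : List (ℕ × ℕ) → List ((ℕ × ℕ) × ℕ) → Bool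
  | [], _ => false
  | v :: rest, asg => (List.range k).all (fun c =>
      asg.any (fun p => Nat.beq p.2 c && conf v p.1) || search k rest ((v, c) :: asg))

theorem search_sound {F : List ℕ} (k : ℕ) (r : Fin k → Fam F → Fam F → Prop)
    (hr : ∀ i, IsLinearOrder (Fam F) (r i)) (h : ∀ x y : Fam F, x ≤ y ↔ ∀ i, r i x y) :
    ∀ (V : List (ℕ × ℕ)) (asg : List ((ℕ × ℕ) × ℕ)),
      (∀ v ∈ V, ∃ a b : Fam F, a.val = v.1 ∧ b.val = v.2 ∧ ¬ a ≤ b) →
      (∀ q ∈ asg, ∃ hc : q.2 < k, ∃ a b : Fam F, a.val = q.1.1 ∧ b.val = q.1.2 ∧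
        ¬ r ⟨q.2, hc⟩ a b) → search k V asg = true → False
  | [], _, _, _, hs => by simp [search] at hs
  | v :: rest, asg, hV, hasg, hs => by
    obtain ⟨a, b, ha, hb, hab⟩ := hV v List.mem_cons_self
    rw [h a b] at hab
    push Not at hab
    obtain ⟨i, hi⟩ := hab
    simp only [search, List.all_eq_true, List.mem_range, Bool.or_eq_true, List.any_eq_true,
      Bool.and_eq_true] at hs
    rcases hs i.1 i.2 with ⟨q, hq, hq2, hconf⟩ | h1
    · rw [beqN] at hq2
      obtain ⟨hc, a', b', ha', hb', hr'⟩ := hasg q hq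
      have hi' : (⟨q.2, hc⟩ : Fin k) = i := Fin.ext hq2
      rw [hi'] at hr'
      simp only [conf, Bool.and_eq_true] at hconf
      rw [← ha, ← hb', ← ha', ← hb] at hconf
      have h2 : a ≤ b' := (Fam.le_iff_sub _ _).2 hconf.1
      have h3 : a' ≤ b := (Fam.le_iff_sub _ _).2 hconf.2
      have hlin := hr i
      have h4 := (h _ _).1 h2 i
      have h5 := (h _ _).1 h3 i
      have h6 : r i b a := by
        rcases hlin.total a b with h | h
        · exact absurd h hi
        · exact h
      have h7 : r i b' a' := by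
        rcases hlin.total a' b' with h | h
        · exact absurd h hr'
        · exact h
      exact hi (hlin.trans _ _ _ (hlin.trans _ _ _ h4 h7) h5)
    · exact search_sound k r hr h rest _ (fun v hv => hV v (List.mem_cons_of_mem _ hv)) (by
        intro q hq
        rcases List.mem_cons.1 hq with rfl | hq
        · exact ⟨i.2, a, b, ha, hb, hi⟩
        · exact hasg q hq) h1

/-- Every finite partial order is an intersection of finitely many linear orders. -/
theorem exists_realizer (L : Type) [PartialOrder L] [Finite L] :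
    ∃ n : ℕ, ∃ r : Fin n → L → L → Prop, (∀ i, IsLinearOrder L (r i)) ∧
      ∀ x y : L, x ≤ y ↔ ∀ i, r i x y := by
  classical
  have key : ∀ q : L × L, ∃ s : L → L → Prop, IsLinearOrder L s ∧ (∀ u v, u ≤ v → s u v) ∧
      (¬ q.1 ≤ q.2 → ¬ s q.1 q.2) := by
    rintro ⟨x, y⟩
    by_cases hxy : x ≤ y
    · obtain ⟨s, hs, hle⟩ := extend_partialOrder ((· ≤ ·) : L → L → Prop)
      exact ⟨s, hs, fun u v h => hle u v h, fun h => absurd hxy h⟩
    · let t : L → L → Prop := fun u v => u ≤ v ∨ (u ≤ y ∧ x ≤ v)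
      have ht : IsPartialOrder L t :=
        { refl := fun u => Or.inl le_rfl
          trans := by
            rintro u v w (h1 | h1) (h2 | h2)
            · exact Or.inl (h1.trans h2)
            · exact Or.inr ⟨h1.trans h2.1, h2.2⟩
            · exact Or.inr ⟨h1.1, h1.2.trans h2⟩
            · exact absurd (h1.2.trans h2.1) hxy
          antisymm := by
            rintro u v (h1 | h1) (h2 | h2)
            · exact le_antisymm h1 h2
            · exact absurd ((h2.2.trans h1).trans h2.1) hxy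
            · exact absurd ((h1.2.trans h2).trans h1.1) hxy
            · exact absurd (h1.2.trans h2.1) hxy }
      obtain ⟨s, hs, hle⟩ := extend_partialOrder t
      refine ⟨s, hs, fun u v h => hle u v (Or.inl h), fun _ h => ?_⟩
      have h2 : s y x := hle y x (Or.inr ⟨le_rfl, le_rfl⟩)
      have h3 := hs.antisymm _ _ h h2
      simp only at h3
      exact hxy h3.le
  choose s hs1 hs2 hs3 using key
  obtain ⟨n, ⟨e⟩⟩ := Finite.exists_equiv_fin (L × L)
  refine ⟨n, fun i => s (e.symm i), fun i => hs1 _, ?_⟩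
  intro x y
  constructor
  · intro h i
    exact hs2 _ _ _ h
  · intro h
    by_contra hxy
    have := h (e (x, y))
    simp only [e.symm_apply_apply] at this
    exact hs3 (x, y) hxy this

theorem dim_gt {F : List ℕ} (V : List (ℕ × ℕ)) (k : ℕ)
    (hV : V.all (fun v => F.any (fun x => Nat.beq x v.1) && F.any (fun x => Nat.beq x v.2) &&
      !(sub v.1 v.2)) = true)
    (hs : ∀ n ≤ k, search n V [] = true) : k < orderDim (Fam F) := by
  have hV' : ∀ v ∈ V, ∃ a b : Fam F, a.val = v.1 ∧ b.val = v.2 ∧ ¬ a ≤ b := by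
    intro v hv
    rw [List.all_eq_true] at hV
    have := hV v hv
    simp only [Bool.and_eq_true, Bool.not_eq_true'] at this
    obtain ⟨⟨h1, h2⟩, h3⟩ := this
    refine ⟨⟨v.1, mem_of_any h1⟩, ⟨v.2, mem_of_any h2⟩, rfl, rfl, ?_⟩
    rw [Fam.le_iff_sub, h3]
    decide
  by_contra hk
  rw [not_lt] at hk
  have hne : {n : ℕ | ∃ r : Fin n → Fam F → Fam F → Prop, (∀ i, IsLinearOrder (Fam F) (r i)) ∧
    ∀ x y : Fam F, x ≤ y ↔ ∀ i, r i x y}.Nonempty := exists_realizer (Fam F)
  obtain ⟨r, h1, h2⟩ := Nat.sInf_mem hne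
  exact search_sound _ r h1 h2 V [] hV' (by simp) (hs _ hk)

end Pool.Agent.Q139.Hasse
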