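import Pool.Agent.Q139.Hasse.Defs

/-!
Congruence uniform posets are semidistributive lattices.
-/

namespace Pool.Agent.Q139.Hasse

/-- A partial order that is a semidistributive lattice. -/
def IsSD (L : Type) [PartialOrder L] : Prop :=
  ∃ s i : L → L → L, (∀ x y z, s x y ≤ z ↔ x ≤ z ∧ y ≤ z) ∧ (∀ x y z, z ≤ i x y ↔ z ≤ x ∧ z ≤ y) ∧
    (∀ x y z, s x y = s x z → s x y = s x (i y z)) ∧
    (∀ x y z, i x y = i x z → i x y = i x (s y z))

theorem IsSD.of_iso {L M : Type} [PartialOrder L] [PartialOrder M] (e : L ≃o M) (h : IsSD L) :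
    IsSD M := by
  obtain ⟨s, i, h1, h2, h3, h4⟩ := h
  refine ⟨fun x y => e (s (e.symm x) (e.symm y)), fun x y => e (i (e.symm x) (e.symm y)),
    ?_, ?_, ?_, ?_⟩
  · intro x y z
    rw [← e.le_symm_apply, h1]
    simp
  · intro x y z
    rw [← e.symm_apply_le, h2]
    simp
  · intro x y z h
    simp only [OrderIso.symm_apply_apply, EmbeddingLike.apply_eq_iff_eq] at h ⊢
    exact h3 _ _ _ h
  · intro x y z h
    simp only [OrderIso.symm_apply_apply, EmbeddingLike.apply_eq_iff_eq] at h ⊢
    exact h4 _ _ _ h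

/-- The doubling as a subset of `L × Bool` with the product order. -/
@[ext]
structure Dbl (L : Type) [PartialOrder L] (a b : L) where
  /-- The underlying element. -/
  elt : L
  /-- The flag. -/
  flag : Bool
  h1 : flag = true → a ≤ elt
  h2 : flag = false → a ≤ elt → elt ≤ b

instance (L : Type) [PartialOrder L] (a b : L) : PartialOrder (Dbl L a b) where
  le p q := p.elt ≤ q.elt ∧ (p.flag = true → q.flag = true)
  le_refl p := ⟨le_rfl, fun h => h⟩
  le_trans p q r h h' := ⟨h.1.trans h'.1, fun x => h'.2 (h.2 x)⟩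
  le_antisymm := by
    rintro ⟨x, e, h1, h2⟩ ⟨y, f, h3, h4⟩ h h'
    have hxy : x = y := le_antisymm h.1 h'.1
    have hef : e = f := by
      have h5 := h.2
      have h6 := h'.2
      simp only at h5 h6
      cases e <;> cases f <;> simp_all
    subst hxy hef
    rfl

theorem Dbl.le_def {L : Type} [PartialOrder L] {a b : L} (p q : Dbl L a b) :
    p ≤ q ↔ p.elt ≤ q.elt ∧ (p.flag = true → q.flag = true) := Iff.rfl

open Classical in
/-- The two descriptions of the doubling agree. -/
noncomputable def dblIso (L : Type) [PartialOrder L] (a b : L) :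
    Doubling L a b ≃o Dbl L a b where
  toFun p := ⟨p.elt, if a ≤ p.elt ∧ p.elt ≤ b then p.flag else decide (a ≤ p.elt), by
    intro h
    split_ifs at h with h'
    · exact h'.1
    · simpa using h, by
    intro h ha
    split_ifs at h with h'
    · exact h'.2
    · exact absurd ha (by simpa using h)⟩
  invFun p := ⟨p.elt, if a ≤ p.elt ∧ p.elt ≤ b then p.flag else false, by
    intro h
    split_ifs at h with h'
    · exact h'⟩
  left_inv := by
    rintro ⟨x, e, hp⟩
    by_cases hI : a ≤ x ∧ x ≤ b
    · simp [hI]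
    · have : e = false := by
        cases e
        · rfl
        · exact absurd (hp rfl) hI
      simp [hI, this]
  right_inv := by
    rintro ⟨x, e, hp1, hp2⟩
    by_cases hI : a ≤ x ∧ x ≤ b
    · simp [hI]
    · simp only [hI, if_false]
      cases e
      · have : ¬ a ≤ x := fun h => hI ⟨h, hp2 rfl h⟩
        simp [this]
      · simp [hp1 rfl]
  map_rel_iff' := by
    rintro ⟨x, e, hp⟩ ⟨y, f, hq⟩
    simp only [Equiv.coe_fn_mk]
    rw [Dbl.le_def]
    have hle : ∀ p q : Doubling L a b, p ≤ q ↔ p.elt ≤ q.elt ∧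
        ((a ≤ p.elt ∧ p.elt ≤ b) → (a ≤ q.elt ∧ q.elt ≤ b) → p.flag ≤ q.flag) :=
      fun _ _ => Iff.rfl
    rw [hle]
    simp only
    constructor
    · rintro ⟨h1, h2⟩
      refine ⟨h1, ?_⟩
      intro hx hy
      simp only [hx, hy, and_self, if_true] at h2
      rwa [Bool.le_iff_imp]
    · rintro ⟨h1, h2⟩
      refine ⟨h1, ?_⟩
      by_cases hx : a ≤ x ∧ x ≤ b
      · by_cases hy : a ≤ y ∧ y ≤ b
        · have := h2 hx hy
          simp only [hx, hy, and_self, if_true]
          rwa [Bool.le_iff_imp] at this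
        · simp only [hy, if_false]
          intro _
          simpa using hx.1.trans h1
      · simp only [hx, if_false]
        intro h
        have ha : a ≤ x := by simpa using h
        have hxb : ¬ x ≤ b := fun h => hx ⟨ha, h⟩
        have hy : ¬ (a ≤ y ∧ y ≤ b) := fun h => hxb (h1.trans h.2)
        simp only [hy, if_false]
        simpa using ha.trans h1

open Classical in
theorem IsSD.dbl {L : Type} [PartialOrder L] (a b : L) (h : IsSD L) : IsSD (Dbl L a b) := by
  obtain ⟨s, i, h1, h2, h3, h4⟩ := h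
  have sl : ∀ x y, x ≤ s x y := fun x y => ((h1 x y _).1 le_rfl).1
  have sr : ∀ x y, y ≤ s x y := fun x y => ((h1 x y _).1 le_rfl).2
  have il : ∀ x y, i x y ≤ x := fun x y => ((h2 x y _).1 le_rfl).1
  have ir : ∀ x y, i x y ≤ y := fun x y => ((h2 x y _).1 le_rfl).2
  refine ⟨fun p q => ⟨s p.elt q.elt, (p.flag || q.flag) ||
      decide (a ≤ s p.elt q.elt ∧ ¬ s p.elt q.elt ≤ b), ?_, ?_⟩,
    fun p q => ⟨i p.elt q.elt, p.flag && q.flag, ?_, ?_⟩, ?_, ?_, ?_, ?_⟩
  · intro h
    simp only [Bool.or_eq_true, decide_eq_true_eq] at h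
    rcases h with (h | h) | h
    · exact (p.h1 h).trans (sl _ _)
    · exact (q.h1 h).trans (sr _ _)
    · exact h.1
  · intro h ha
    simp only [Bool.or_eq_false_iff, decide_eq_false_iff_not, not_and, not_not] at h
    exact h.2 ha
  · intro h
    simp only [Bool.and_eq_true] at h
    exact (h2 _ _ _).2 ⟨p.h1 h.1, q.h1 h.2⟩
  · intro h ha
    rcases Bool.and_eq_false_iff.1 h with h | h
    · exact (il _ _).trans (p.h2 h (ha.trans (il _ _)))
    · exact (ir _ _).trans (q.h2 h (ha.trans (ir _ _)))
  · intro p q r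
    simp only [Dbl.le_def, h1, Bool.or_eq_true, decide_eq_true_eq]
    constructor
    · rintro ⟨⟨hp, hq⟩, h⟩
      exact ⟨⟨hp, fun h' => h (Or.inl (Or.inl h'))⟩, ⟨hq, fun h' => h (Or.inl (Or.inr h'))⟩⟩
    · rintro ⟨⟨hp, hp2⟩, ⟨hq, hq2⟩⟩
      refine ⟨⟨hp, hq⟩, ?_⟩
      rintro ((h | h) | h)
      · exact hp2 h
      · exact hq2 h
      · by_contra hr
        have hr' : r.flag = false := by simpa using hr
        have hs : s p.elt q.elt ≤ r.elt := (h1 _ _ _).2 ⟨hp, hq⟩
        exact h.2 ((h1 _ _ _).1 (hs.trans (r.h2 hr' (h.1.trans hs))))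
  · intro p q r
    simp only [Dbl.le_def, h2, Bool.and_eq_true]
    tauto
  · intro p q r h
    have e1 : s p.elt q.elt = s p.elt r.elt := congrArg (fun t => t.elt) h
    have e2 : ((p.flag || q.flag) || decide (a ≤ s p.elt q.elt ∧ ¬ s p.elt q.elt ≤ b)) =
      ((p.flag || r.flag) || decide (a ≤ s p.elt r.elt ∧ ¬ s p.elt r.elt ≤ b)) :=
      congrArg (fun t => t.flag) h
    have e3 := h3 _ _ _ e1
    apply Dbl.ext
    · exact e3
    · simp only
      rw [← e3]
      rw [← e1] at e2
      rcases hp : p.flag <;> rcases hq : q.flag <;> rcases hr : r.flag <;>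
        rcases hd : decide (a ≤ s p.elt q.elt ∧ ¬ s p.elt q.elt ≤ b) <;> simp_all
  · intro p q r h
    have e1 : i p.elt q.elt = i p.elt r.elt := congrArg (fun t => t.elt) h
    have e2 : (p.flag && q.flag) = (p.flag && r.flag) := congrArg (fun t => t.flag) h
    have e3 := h4 _ _ _ e1
    apply Dbl.ext
    · exact e3
    · simp only
      rcases hp : p.flag
      · simp
      · rw [hp] at e2
        simp only [Bool.true_and] at e2 ⊢
        rcases hq : q.flag
        · rw [hq] at e2
          rw [← e2]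
          simp only [Bool.or_self, Bool.false_or]
          symm
          rw [decide_eq_false_iff_not]
          rintro ⟨h5, h6⟩
          apply h6
          have hap : a ≤ p.elt := p.h1 hp
          have haw : a ≤ i p.elt (s q.elt r.elt) := (h2 _ _ _).2 ⟨hap, h5⟩
          have haq : a ≤ i p.elt q.elt := by rw [e3]; exact haw
          have har : a ≤ i p.elt r.elt := by rw [← e1]; exact haq
          exact (h1 _ _ _).2 ⟨q.h2 hq (haq.trans (ir _ _)),
            r.h2 e2.symm (har.trans (ir _ _))⟩
        · simp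

theorem CongruenceUniform.isSD {L : Type} [PartialOrder L] (h : CongruenceUniform L) : IsSD L := by
  induction h with
  | one L =>
    exact ⟨fun _ _ => default, fun _ _ => default,
      fun x y z => by simp [Subsingleton.elim x z, Subsingleton.elim y z,
        Subsingleton.elim default z],
      fun x y z => by simp [Subsingleton.elim x z, Subsingleton.elim y z,
        Subsingleton.elim default z], fun _ _ _ _ => rfl, fun _ _ _ _ => rfl⟩
  | double L a b hab _ ih => exact (ih.dbl a b).of_iso (dblIso L a b).symm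
  | iso L M e _ ih => exact ih.of_iso e

/-- The lattice structure of a congruence uniform partial order. -/
theorem IsSD.exists_lattice {L : Type} [inst : PartialOrder L] (h : IsSD L) :
    ∃ l : Lattice L, l.toPartialOrder = inst ∧ Semidistributive L := by
  obtain ⟨s, i, h1, h2, h3, h4⟩ := h
  let l : Lattice L :=
    { inst with
      sup := s
      inf := i
      le_sup_left := fun x y => ((h1 x y _).1 le_rfl).1
      le_sup_right := fun x y => ((h1 x y _).1 le_rfl).2
      sup_le := fun x y z hx hy => (h1 x y z).2 ⟨hx, hy⟩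
      inf_le_left := fun x y => ((h2 x y _).1 le_rfl).1
      inf_le_right := fun x y => ((h2 x y _).1 le_rfl).2
      le_inf := fun x y z hx hy => (h2 y z x).2 ⟨hx, hy⟩ }
  exact ⟨l, rfl, fun x y z => ⟨h3 x y z, h4 x y z⟩⟩

end Pool.Agent.Q139.Hasse
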