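import Mathlib

/-!
Hasse-regular lattices, semidistributivity, interval doublings, congruence uniformity and order
dimension.
-/

namespace Pool.Agent.Q139.Hasse

/-- Semidistributive lattices. -/
def Semidistributive (L : Type) [Lattice L] : Prop :=
  ∀ x y z : L, (x ⊔ y = x ⊔ z → x ⊔ y = x ⊔ (y ⊓ z)) ∧
    (x ⊓ y = x ⊓ z → x ⊓ y = x ⊓ (y ⊔ z))

/-- `r`-Hasse-regularity: for every element, the number of elements it covers plus the number of
elements covering it is `r`. -/
def HasseRegular (L : Type) [PartialOrder L] (r : ℕ) : Prop :=
  ∀ x : L, {y : L | y ⋖ x}.ncard + {y : L | x ⋖ y}.ncard = r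

/-- Day's doubling of the interval `I = [a, b]` of `L`.  The elements outside `I` occur once (with
flag `false`), the elements of `I` occur twice (with flags `false` and `true`). -/
structure Doubling (L : Type) [PartialOrder L] (a b : L) where
  /-- The underlying element of `L`. -/
  elt : L
  /-- The copy. -/
  flag : Bool
  flag_imp : flag = true → a ≤ elt ∧ elt ≤ b

/-- The order of the doubling: two elements compare as their images in `L`, except that for two
elements coming from `I` the flags have to compare as well. -/
instance (L : Type) [PartialOrder L] (a b : L) : PartialOrder (Doubling L a b) where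
  le p q := p.elt ≤ q.elt ∧
    ((a ≤ p.elt ∧ p.elt ≤ b) → (a ≤ q.elt ∧ q.elt ≤ b) → p.flag ≤ q.flag)
  le_refl p := ⟨le_rfl, fun _ _ => le_rfl⟩
  le_trans := by
    intro p q r h1 h2
    refine ⟨h1.1.trans h2.1, ?_⟩
    intro hp hr
    have hq : a ≤ q.elt ∧ q.elt ≤ b := ⟨hp.1.trans h1.1, h2.1.trans hr.2⟩
    exact (h1.2 hp hq).trans (h2.2 hq hr)
  le_antisymm := by
    rintro ⟨x, e, hp⟩ ⟨y, f, hq⟩ h1 h2
    have hxy : x = y := le_antisymm h1.1 h2.1
    subst hxy
    have hef : e = f := by
      by_cases hI : a ≤ x ∧ x ≤ b
      · exact le_antisymm (h1.2 hI hI) (h2.2 hI hI)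
      · cases e <;> cases f <;> simp_all
    subst hef
    rfl

/-- Congruence uniform lattices: those obtained from the one-element lattice by a finite sequence
of interval doublings (up to isomorphism). -/
inductive CongruenceUniform : (L : Type) → [PartialOrder L] → Prop
  | one (L : Type) [PartialOrder L] [Unique L] : CongruenceUniform L
  | double (L : Type) [PartialOrder L] (a b : L) (h : a ≤ b) (hL : CongruenceUniform L) :
      CongruenceUniform (Doubling L a b)
  | iso (L M : Type) [PartialOrder L] [PartialOrder M] (e : L ≃o M)
      (hL : CongruenceUniform L) : CongruenceUniform M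

/-- Order dimension: the least number of linear orders on `L` whose intersection is the order
of `L`. -/
noncomputable def orderDim (L : Type) [PartialOrder L] : ℕ :=
  sInf {n : ℕ | ∃ r : Fin n → L → L → Prop, (∀ i, IsLinearOrder L (r i)) ∧
    ∀ x y : L, x ≤ y ↔ ∀ i, r i x y}

end Pool.Agent.Q139.Hasse
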