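import Pool.Agent.Q139.Hasse.Dbl

/-!
Families of natural numbers (bit masks) ordered by inclusion; checkable certificates.
-/

namespace Pool.Agent.Q139.Hasse

/-- The members of a list of bit masks. -/
@[ext]
structure Fam (F : List ℕ) where
  /-- The mask. -/
  val : ℕ
  mem : val ∈ F

theorem beqN {a b : ℕ} : Nat.beq a b = true ↔ a = b :=
  ⟨Nat.eq_of_beq_eq_true, fun h => h ▸ Nat.beq_refl a⟩

/-- Boolean inclusion test. -/
def sub (x y : ℕ) : Bool := Nat.beq (Nat.land x y) x

theorem sub_iff {x y : ℕ} : sub x y = true ↔ x &&& y = x := by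
  unfold sub
  exact beqN

instance (F : List ℕ) : PartialOrder (Fam F) where
  le x y := x.val &&& y.val = x.val
  le_refl x := Nat.and_self _
  le_trans := by
    intro x y z (h1 : x.val &&& y.val = x.val) (h2 : y.val &&& z.val = y.val)
    calc x.val &&& z.val = (x.val &&& y.val) &&& z.val := by rw [h1]
      _ = x.val &&& (y.val &&& z.val) := Nat.and_assoc _ _ _
      _ = x.val := by rw [h2, h1]
  le_antisymm := by
    intro x y (h1 : x.val &&& y.val = x.val) (h2 : y.val &&& x.val = y.val)
    apply Fam.ext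
    rw [← h1, Nat.and_comm, h2]

theorem Fam.le_def {F : List ℕ} (x y : Fam F) : x ≤ y ↔ x.val &&& y.val = x.val := Iff.rfl

theorem Fam.le_iff_sub {F : List ℕ} (x y : Fam F) : x ≤ y ↔ sub x.val y.val = true := by
  rw [sub_iff]
  exact Iff.rfl

/-- One doubling step on masks. -/
def step (F : List ℕ) (a b : ℕ) : List ℕ :=
  F.flatMap (fun x => bif sub a x then (bif sub x b then [2 * x, 2 * x + 1] else [2 * x + 1])
    else [2 * x])

theorem mem_step {F : List ℕ} {a b y : ℕ} : y ∈ step F a b ↔ ∃ x ∈ F,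
    (y = 2 * x + 1 ∧ sub a x = true) ∨ (y = 2 * x ∧ (sub a x = true → sub x b = true)) := by
  unfold step
  rw [List.mem_flatMap]
  constructor
  · rintro ⟨x, hx, hy⟩
    refine ⟨x, hx, ?_⟩
    cases h1 : sub a x <;> cases h2 : sub x b <;> simp_all
    tauto
  · rintro ⟨x, hx, hy⟩
    refine ⟨x, hx, ?_⟩
    cases h1 : sub a x <;> cases h2 : sub x b <;> simp_all
    tauto

theorem land_two (x y : ℕ) (e f : Bool) :
    (2 * x + e.toNat) &&& (2 * y + f.toNat) = 2 * (x &&& y) + (e && f).toNat := by
  have h : ∀ (n : ℕ) (c : Bool), 2 * n + c.toNat = Nat.bit c n := by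
    intro n c
    rw [Nat.bit_val]
  rw [h, h, h, Nat.land_bit]

theorem le_two (x y : ℕ) (e f : Bool) :
    (2 * x + e.toNat) &&& (2 * y + f.toNat) = 2 * x + e.toNat ↔
      (x &&& y = x ∧ (e = true → f = true)) := by
  rw [land_two]
  cases e <;> cases f <;> simp <;> omega

/-- The family after one step is the doubling of the family. -/
def famIso (F : List ℕ) (a b : ℕ) (ha : a ∈ F) (hb : b ∈ F) :
    Dbl (Fam F) ⟨a, ha⟩ ⟨b, hb⟩ ≃o Fam (step F a b) where
  toFun p := ⟨2 * p.elt.val + p.flag.toNat, by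
    rw [mem_step]
    refine ⟨p.elt.val, p.elt.mem, ?_⟩
    cases hf : p.flag
    · right
      refine ⟨by simp, ?_⟩
      intro h
      exact (Fam.le_iff_sub _ _).1 (p.h2 hf ((Fam.le_iff_sub _ _).2 h))
    · left
      exact ⟨by simp, (Fam.le_iff_sub _ _).1 (p.h1 hf)⟩⟩
  invFun y := ⟨⟨y.val / 2, by
      obtain ⟨x, hx, h | h⟩ := mem_step.1 y.mem
      · rw [h.1]
        have : (2 * x + 1) / 2 = x := by omega
        rwa [this]
      · rw [h.1]
        have : (2 * x) / 2 = x := by omega
        rwa [this]⟩, Nat.beq (y.val % 2) 1, by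
      intro h
      rw [beqN] at h
      obtain ⟨x, hx, h' | h'⟩ := mem_step.1 y.mem
      · rw [Fam.le_iff_sub]
        have : y.val / 2 = x := by omega
        simp only [this]
        exact h'.2
      · omega, by
      intro h ha'
      have h0 : y.val % 2 ≠ 1 := by
        intro h1
        rw [h1] at h
        exact absurd h (by decide)
      obtain ⟨x, hx, h' | h'⟩ := mem_step.1 y.mem
      · omega
      · have : y.val / 2 = x := by omega
        rw [Fam.le_iff_sub] at ha' ⊢
        simp only [this] at ha' ⊢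
        exact h'.2 ha'⟩
  left_inv := by
    rintro ⟨⟨x, hx⟩, e, h1, h2⟩
    apply Dbl.ext
    · apply Fam.ext
      cases e
      · simp
      · simp
        omega
    · cases e
      · simp only [Bool.toNat_false, Nat.add_zero]
        have : 2 * x % 2 = 0 := by omega
        rw [this]
        rfl
      · simp only [Bool.toNat_true]
        have : (2 * x + 1) % 2 = 1 := by omega
        rw [this]
        rfl
  right_inv := by
    rintro ⟨y, hy⟩
    apply Fam.ext
    simp only
    rcases Nat.mod_two_eq_zero_or_one y with h | h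
    · rw [h]
      have : (Nat.beq 0 1).toNat = 0 := rfl
      rw [this]
      omega
    · rw [h]
      have : (Nat.beq 1 1).toNat = 1 := rfl
      rw [this]
      omega
  map_rel_iff' := by
    rintro ⟨⟨x, hx⟩, e, h1, h2⟩ ⟨⟨y, hy⟩, f, h3, h4⟩
    simp only [Equiv.coe_fn_mk, Fam.le_def, Dbl.le_def]
    exact le_two x y e f

/-- Iterated doubling. -/
def build : List ℕ → List (ℕ × ℕ) → List ℕ
  | F, [] => F
  | F, s :: l => build (step F s.1 s.2) l

/-- The endpoints of all doubled intervals belong to the family and are comparable. -/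
def checkB : List ℕ → List (ℕ × ℕ) → Bool
  | _, [] => true
  | F, s :: l => F.any (fun x => Nat.beq x s.1) && F.any (fun x => Nat.beq x s.2) &&
      sub s.1 s.2 && checkB (step F s.1 s.2) l

theorem mem_of_any {F : List ℕ} {a : ℕ} (h : F.any (fun x => Nat.beq x a) = true) : a ∈ F := by
  rw [List.any_eq_true] at h
  obtain ⟨x, hx, h⟩ := h
  rw [beqN] at h
  rwa [← h]

theorem cu_build : ∀ (l : List (ℕ × ℕ)) (F : List ℕ), CongruenceUniform (Fam F) →
    checkB F l = true → CongruenceUniform (Fam (build F l))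
  | [], F, hF, _ => hF
  | s :: l, F, hF, h => by
    simp only [checkB, Bool.and_eq_true] at h
    obtain ⟨⟨⟨h1, h2⟩, h3⟩, h4⟩ := h
    have ha := mem_of_any h1
    have hb := mem_of_any h2
    have hab : (⟨s.1, ha⟩ : Fam F) ≤ ⟨s.2, hb⟩ := (Fam.le_iff_sub _ _).2 h3
    have e1 := CongruenceUniform.double (Fam F) ⟨s.1, ha⟩ ⟨s.2, hb⟩ hab hF
    have e2 := CongruenceUniform.iso _ (Fam (step F s.1 s.2))
      ((dblIso (Fam F) ⟨s.1, ha⟩ ⟨s.2, hb⟩).trans (famIso F s.1 s.2 ha hb)) e1
    exact cu_build l _ e2 h4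

theorem cu_start : CongruenceUniform (Fam [0]) := by
  have : Unique (Fam [0]) :=
    { default := ⟨0, by simp⟩
      uniq := by
        rintro ⟨x, hx⟩
        apply Fam.ext
        simpa using hx }
  exact CongruenceUniform.one _

instance (F : List ℕ) : Finite (Fam F) :=
  Finite.of_injective (fun x : Fam F => (⟨x.val, by simpa using x.mem⟩ : F.toFinset))
    (fun x y h => Fam.ext (by simpa using h))

end Pool.Agent.Q139.Hasse
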