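import Pool.Agent.Q139.Hasse.Data

/-!
The example is congruence uniform, semidistributive, `4`-Hasse-regular, of order dimension at
least five.
-/

namespace Pool.Agent.Q139.Hasse

/-- Equality test for lists of natural numbers. -/
def beqL : List ℕ → List ℕ → Bool
  | [], [] => true
  | x :: l, y :: m => Nat.beq x y && beqL l m
  | _, _ => false

theorem eq_of_beqL : ∀ {l m : List ℕ}, beqL l m = true → l = m
  | [], [], _ => rfl
  | x :: l, y :: m, h => by
    simp only [beqL, Bool.and_eq_true] at h
    rw [beqN.1 h.1, eq_of_beqL h.2]
  | [], _ :: _, h => by simp [beqL] at h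
  | _ :: _, [], h => by simp [beqL] at h

theorem check1 : checkB [0] steps = true := by decide +kernel

theorem check2 : beqL (build [0] steps) (table.map Prod.fst) = true := by decide +kernel

theorem check3 : nodupB (table.map Prod.fst) = true := by decide +kernel

theorem check4 : table.all (fun e => entryOK 4 table e) = true := by decide +kernel

theorem check5 : pairs.all (fun v => (table.map Prod.fst).any (fun x => Nat.beq x v.1) &&
    (table.map Prod.fst).any (fun x => Nat.beq x v.2) && !(sub v.1 v.2)) = true := by
  decide +kernel

theorem check6 : search 4 pairs [] = true := by decide +kernel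

theorem check7 : (List.range 4).all (fun n => search n pairs []) = true := by decide +kernel

/-- The 343-element example. -/
abbrev Ex : Type := Fam (table.map Prod.fst)

theorem ex_cu : CongruenceUniform Ex := by
  have h := cu_build steps [0] cu_start check1
  rw [eq_of_beqL check2] at h
  exact h

theorem ex_regular : HasseRegular Ex 4 := regular_of_check 4 table check4 check3

theorem ex_dim : 4 < orderDim Ex := by
  apply dim_gt pairs 4 check5
  intro n hn
  rcases Nat.lt_or_ge n 4 with h | h
  · have := check7
    rw [List.all_eq_true] at this
    exact this n (List.mem_range.2 h)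
  · have : n = 4 := le_antisymm hn h
    rw [this]
    exact check6

theorem example_lattice : ∃ (L : Type) (_ : Lattice L) (_ : Finite L),
    Semidistributive L ∧ CongruenceUniform L ∧ HasseRegular L 4 ∧ 4 < orderDim L := by
  obtain ⟨l, hl, hsd⟩ := ex_cu.isSD.exists_lattice
  have h1 : @CongruenceUniform Ex l.toPartialOrder := by rw [hl]; exact ex_cu
  have h2 : @HasseRegular Ex l.toPartialOrder 4 := by rw [hl]; exact ex_regular
  have h3 : 4 < @orderDim Ex l.toPartialOrder := by rw [hl]; exact ex_dim
  exact ⟨Ex, l, inferInstance, hsd, h1, h2, h3⟩

end Pool.Agent.Q139.Hasse
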